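import Mathlib
import Pool.Agent.H560.SQ.Final

/-!
# Polynomials without small prime factors, with a prescribed parity of the number of prime factors,
in all intervals near squares, `q` even
-/

set_option autoImplicit false

namespace Pool.Agent.Results.MP_bf4c7f_nt.BothParitiesNearSquares

open Polynomial

/-- The number of irreducible factors of `f`, with multiplicity. -/
noncomputable def numFactors {K : Type} [Field K] (f : K[X]) : ℕ :=
  Multiset.card (UniqueFactorizationMonoid.factors f)

/-- The squarefree `f` with `deg (f - g) < h` all of whose irreducible factors have degree `> y`. -/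
def Rough {K : Type} [Field K] (g : K[X]) (h : ℕ) (y : ℝ) : Set K[X] :=
  {f : K[X] | (f - g).degree < (h : WithBot ℕ) ∧ Squarefree f ∧
    ∀ P : K[X], Irreducible P → P ∣ f → y < (P.natDegree : ℝ)}

/-- Let `K` be a finite field with an even number `q` of elements and let `ε > 0`. There are
`κ, c > 0` and `h₀` such that for all `h ≥ h₀`, ALL monic `A` with `h ≤ 2 deg A` and ALL `R` with
`deg R < 2 deg A` and `deg R ≤ (2 - ε) h`: among the `q ^ h` polynomials `f` with
`deg (f - (A² + R)) < h` at least `c q ^ h / h` are squarefree, without irreducible factor of degree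
at most `κ h`, and have an ODD number of irreducible factors, and at least `c q ^ h / h` are
squarefree, without irreducible factor of degree at most `κ h`, and have an EVEN number of
irreducible factors. -/
theorem result (K : Type) [Field K] [Fintype K] [CharP K 2] (ε : ℝ) (hε : 0 < ε) :
    ∃ κ c : ℝ, 0 < κ ∧ 0 < c ∧ ∃ h₀ : ℕ, ∀ h : ℕ, h₀ ≤ h → ∀ A R : K[X], A.Monic →
      h ≤ 2 * A.natDegree → R.degree < ((2 * A.natDegree : ℕ) : WithBot ℕ) →
      (R.natDegree : ℝ) ≤ (2 - ε) * h →
        c * (Fintype.card K : ℝ) ^ h / h ≤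
          {f ∈ Rough (A ^ 2 + R) h (κ * h) | Odd (numFactors f)}.ncard ∧
        c * (Fintype.card K : ℝ) ^ h / h ≤
          {f ∈ Rough (A ^ 2 + R) h (κ * h) | Even (numFactors f)}.ncard := by
  obtain ⟨κ, c, hκ, hc, h₀, hh₀⟩ := Pool.Agent.H560.SQ.near_top K ε hε
  refine ⟨κ, c, hκ, hc, h₀, fun h hh A R hA hhA hR hRh => ?_⟩
  obtain ⟨h1, h2⟩ := hh₀ h hh A R hA hhA hR hRh
  constructor
  · refine h1.trans (le_of_eq ?_)
    congr 2
    ext f
    simp only [Rough, numFactors, Set.mem_ofPred_eq]
    tauto
  · refine h2.trans (le_of_eq ?_)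
    congr 2
    ext f
    simp only [Rough, numFactors, Set.mem_ofPred_eq]
    tauto

end Pool.Agent.Results.MP_bf4c7f_nt.BothParitiesNearSquares
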