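import Pool.Agent.H521.G.Opp2

open MeasureTheory Set Filter Topology
open scoped ENNReal ComplexConjugate

namespace Pool.Agent.Results.MP_bf4c7f_nt.OppermannExceptionalSets

/-- A sequence of (Beurling) generalised primes `1 < p 0 < p 1 < ⋯ → ∞`. -/
structure GenPrimes (p : ℕ → ℝ) : Prop where
  one_lt : 1 < p 0
  strictMono : StrictMono p
  tendsto : Tendsto p atTop atTop

/-- The generalised integer `∏ p_j ^ (e j)` with exponent vector `e`. -/
noncomputable def genInt (p : ℕ → ℝ) (e : ℕ →₀ ℕ) : ℝ := e.prod fun j k => p j ^ k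

/-- `N_P(x)`, the number of generalised integers `≤ x`, counted with multiplicity. -/
noncomputable def countInts (p : ℕ → ℝ) (x : ℝ) : ℕ := Set.ncard {e : ℕ →₀ ℕ | genInt p e ≤ x}

/-- `π_P(x)`, the number of generalised primes `≤ x`. -/
noncomputable def countPrimes (p : ℕ → ℝ) (x : ℝ) : ℕ := Set.ncard {j : ℕ | p j ≤ x}

/-- The zeta function `ζ_P(s) = ∑ n^{-s}` over the generalised integers. -/
noncomputable def zetaP (p : ℕ → ℝ) (s : ℂ) : ℂ := ∑' e : ℕ →₀ ℕ, ((genInt p e : ℝ) : ℂ) ^ (-s)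

/-- The main term `∫_2^x (1 - ∑_{ρ ∈ Z} Re u^{ρ-1}) du / log u` of the prime counting function,
that is `li x - ∑_ρ li x^ρ` up to a constant, for a finite multiset `Z` of zeros. -/
noncomputable def primeMain (Z : Multiset ℂ) (x : ℝ) : ℝ :=
  ∫ u in (2 : ℝ)..x, (1 - (Z.map fun ρ => ((u : ℂ) ^ (ρ - 1)).re).sum) / Real.log u

/-- `p` is a system of generalised primes whose zeta function continues to `Re s > 1/2`
with only a simple pole at `1`, with zeros exactly `Z` there (with multiplicity) and with the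
Lindelöf bound, and with square-root error terms in the counting of generalised integers and
of generalised primes.  For `Z = 0` this is the Riemann hypothesis for `p`. -/
structure System (Z : Multiset ℂ) (p : ℕ → ℝ) : Prop where
  primes : GenPrimes p
  summable : ∀ s : ℂ, 1 < s.re → Summable fun e : ℕ →₀ ℕ => ((genInt p e : ℝ) : ℂ) ^ (-s)
  zeta : ∃ g : ℂ → ℂ, DifferentiableOn ℂ g {s : ℂ | 1 / 2 < s.re} ∧
    (∀ s : ℂ, 1 < s.re → (s - 1) * zetaP p s = (Z.map fun ρ => s - ρ).prod * Complex.exp (g s)) ∧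
    ∀ ε : ℝ, 0 < ε → ∃ C : ℝ, ∀ s : ℂ, 1 / 2 + ε ≤ s.re →
      ‖(Z.map fun ρ => s - ρ).prod * Complex.exp (g s)‖ ≤ C * (1 + ‖s‖) ^ (1 + ε)
  ints : ∃ κ : ℝ, 0 < κ ∧ ∀ ε : ℝ, 0 < ε → ∃ C : ℝ, ∀ x : ℝ, 1 ≤ x →
    |(countInts p x : ℝ) - κ * x| ≤ C * x ^ (1 / 2 + ε)
  pnt : ∀ ε : ℝ, 0 < ε → ∃ C : ℝ, ∀ x : ℝ, 2 ≤ x →
    |(countPrimes p x : ℝ) - primeMain Z x| ≤ C * x ^ (1 / 2 + ε)

/-- The number of generalised primes strictly between `x` and `y`. -/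
noncomputable def primesIn (p : ℕ → ℝ) (x y : ℝ) : ℕ := Set.ncard {k : ℕ | x < p k ∧ p k < y}

/-- Sets of natural numbers with `#(S ∩ [1, N]) = O(N^ε)` for every `ε > 0`. -/
def Sparse (S : Set ℕ) : Prop := ∀ ε : ℝ, 0 < ε → ∃ C : ℝ, ∀ N : ℕ, 1 ≤ N →
  ((Set.ncard {n | n ∈ S ∧ n ≤ N} : ℕ) : ℝ) ≤ C * (N : ℝ) ^ ε

/-- Functions with `a(n) = O(n^(1+ε))` for every `ε > 0`. -/
def NearLinear (a : ℕ → ℕ) : Prop := ∀ ε : ℝ, 0 < ε → ∃ C : ℝ, ∀ n : ℕ, 1 ≤ n →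
  (a n : ℝ) ≤ C * (n : ℝ) ^ (1 + ε)

open Pool.Agent.H521 Pool.Agent.H521.G in
/-- **Theorem.** The exceptional sets in Oppermann's conjecture for systems of generalised primes
with Riemann hypothesis (or any other finite set of zeros) and square-root error terms are
exactly the pairs of sets with counting functions `O(N^ε)`; moreover the numbers of primes in the
exceptional intervals can be prescribed, with the expected number in all the others. -/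
theorem result (Z : Multiset ℂ) (hZ : ∀ ρ ∈ Z, 1 / 2 < ρ.re ∧ ρ.re < 1)
    (hZc : Z.map conj = Z) (S T : Set ℕ) :
    ((∃ p : ℕ → ℝ, System Z p ∧ ∃ n₀ : ℕ, ∀ n, n₀ ≤ n →
        (primesIn p ((n : ℝ) ^ 2 - n) ((n : ℝ) ^ 2) = 0 ↔ n ∈ S) ∧
        (primesIn p ((n : ℝ) ^ 2) ((n : ℝ) ^ 2 + n) = 0 ↔ n ∈ T)) ↔ Sparse S ∧ Sparse T) ∧
    (Sparse S → Sparse T → ∀ a b : ℕ → ℕ, NearLinear a → NearLinear b →
      ∃ p : ℕ → ℝ, System Z p ∧
        (∃ n₀ : ℕ, ∀ n, n₀ ≤ n →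
          (n ∈ S → primesIn p ((n : ℝ) ^ 2 - n) ((n : ℝ) ^ 2) = a n) ∧
          (n ∈ T → primesIn p ((n : ℝ) ^ 2) ((n : ℝ) ^ 2 + n) = b n)) ∧
        ∀ ε : ℝ, 0 < ε → ∃ n₀ : ℕ, ∀ n, n₀ ≤ n →
          (n ∉ S → |(primesIn p ((n : ℝ) ^ 2 - n) ((n : ℝ) ^ 2) : ℝ) - n / (2 * Real.log n)| ≤
            ε * (n / Real.log n)) ∧
          (n ∉ T → |(primesIn p ((n : ℝ) ^ 2) ((n : ℝ) ^ 2 + n) : ℝ) - n / (2 * Real.log n)| ≤
            ε * (n / Real.log n))) := by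
  have hZ1 : ∀ ρ ∈ Z, ρ.re < 1 := fun ρ h => (hZ ρ h).2
  have key : Sparse S → Sparse T → ∀ a b : ℕ → ℕ, NearLinear a → NearLinear b →
      ∃ p : ℕ → ℝ, System Z p ∧
        (∃ n₀ : ℕ, ∀ n, n₀ ≤ n →
          (n ∈ S → primesIn p ((n : ℝ) ^ 2 - n) ((n : ℝ) ^ 2) = a n) ∧
          (n ∈ T → primesIn p ((n : ℝ) ^ 2) ((n : ℝ) ^ 2 + n) = b n)) ∧
        ∀ ε : ℝ, 0 < ε → ∃ n₀ : ℕ, ∀ n, n₀ ≤ n →
          (n ∉ S → |(primesIn p ((n : ℝ) ^ 2 - n) ((n : ℝ) ^ 2) : ℝ) - n / (2 * Real.log n)| ≤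
            ε * (n / Real.log n)) ∧
          (n ∉ T → |(primesIn p ((n : ℝ) ^ 2) ((n : ℝ) ^ 2 + n) : ℝ) - n / (2 * Real.log n)| ≤
            ε * (n / Real.log n)) := by
    intro hS hT a b ha hb
    obtain ⟨p, hs, ⟨n₀, h1⟩, h2⟩ := opp_exists hZ1 hZc (S := S) (T := T) hS hT (a := a) (b := b)
      (fun ε hε => by
        obtain ⟨C, hC⟩ := ha ε hε
        exact ⟨C, fun n _ hn => hC n hn⟩)
      (fun ε hε => by
        obtain ⟨C, hC⟩ := hb ε hε
        exact ⟨C, fun n _ hn => hC n hn⟩)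
    exact ⟨p, ⟨⟨by linarith [hs.three_le 0], hs.mono, hs.tendsto⟩, hs.summable, hs.zeta,
      hs.ints, hs.pnt⟩, ⟨n₀, fun n hn => ⟨(h1 n hn).2.2.2.1, (h1 n hn).2.2.2.2⟩⟩, h2⟩
  refine ⟨⟨?_, ?_⟩, key⟩
  · rintro ⟨p, hS, n₀, h⟩
    have hW : SysW Z p := ⟨hS.primes.one_lt, hS.primes.strictMono, hS.primes.tendsto,
      hS.summable, hS.zeta, hS.pnt⟩
    obtain ⟨h1, h2⟩ := opp_few hZ1 hZc hW 1
    constructor
    · exact Sps.of_map h1 (n₀ := n₀) (A := 1) (f := id)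
        (fun n hn hn0 => Nat.lt_one_iff.2 ((h n hn0).1.2 hn)) (fun n => by simp)
        (fun m n _ _ _ _ hmn => hmn)
    · exact Sps.of_map h2 (n₀ := n₀) (A := 1) (f := id)
        (fun n hn hn0 => Nat.lt_one_iff.2 ((h n hn0).2.2 hn)) (fun n => by simp)
        (fun m n _ _ _ _ hmn => hmn)
  · rintro ⟨hS, hT⟩
    obtain ⟨p, hs, ⟨n₀, h1⟩, h2⟩ := key hS hT (fun _ => 0) (fun _ => 0)
      (fun ε hε => ⟨1, fun n hn => by simp; positivity⟩)
      (fun ε hε => ⟨1, fun n hn => by simp; positivity⟩)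
    obtain ⟨n₁, h3⟩ := h2 (1 / 4) (by norm_num)
    refine ⟨p, hs, max (max n₀ n₁) 3, fun n hn => ?_⟩
    have hn0 : n₀ ≤ n := (le_max_left _ _).trans ((le_max_left _ _).trans hn)
    have hn1 : n₁ ≤ n := (le_max_right _ _).trans ((le_max_left _ _).trans hn)
    have hn3 : 3 ≤ n := (le_max_right _ _).trans hn
    have hn3' : (3 : ℝ) ≤ n := by exact_mod_cast hn3
    have hl : 0 < Real.log n := Real.log_pos (by linarith)
    have hpos : 0 < (n : ℝ) / Real.log n := by positivity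
    have e : (n : ℝ) / (2 * Real.log n) = 1 / 2 * (n / Real.log n) := by field_simp
    obtain ⟨g1, g2⟩ := h3 n hn1
    rw [e] at g1 g2
    constructor
    · refine ⟨fun h => ?_, (h1 n hn0).1⟩
      by_contra hc
      have := g1 hc
      rw [h, abs_le] at this
      push_cast at this
      linarith [this.1]
    · refine ⟨fun h => ?_, (h1 n hn0).2⟩
      by_contra hc
      have := g2 hc
      rw [h, abs_le] at this
      push_cast at this
      linarith [this.1]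

end Pool.Agent.Results.MP_bf4c7f_nt.OppermannExceptionalSets
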